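import Mathlib
import Pool.Agent.Q286.PL.All

/-!
# Wilson's lattice gauge theory: Polyakov loops, confinement and string tension depend only on
# the N-ality, at every coupling and every temperature

Euclidean lattice gauge theory with Wilson's action on the periodic lattice `(ℤ/l)^D × ℤ/n`
(dimension `D + 1 ≥ 3`, `n` is the inverse temperature), gauge group an arbitrary connected closed
subgroup `G` of `U(N)` (for instance `SU(N)`), with the coupling `β > 0` for the temporal plaquettes
and an arbitrary real coupling `κ` for the spatial plaquettes (`κ = β` is the usual Wilson action).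

For a continuous unitary representation `ρ` of `G` and sites `x`, `y` of the spatial lattice the
correlation of the Polyakov loops `⟨χ_ρ(P_x) conj χ_ρ(P_y)⟩ = d^2 exp (-n V_ρ(x, y))` defines the static
potential `V_ρ` at the temperature `1 / n`.

The definitions are in `Pool.Agent.Q286.PL.Def` (`wilson`, `polyakov`, `loopInt`, `partition`,
`corr`, `pot`) and `Pool.Agent.Q286.NL.Def` (`Rep`, `SameCentre`, `magnetic`).

All constants are independent of the size `l` of the lattice, of the temperature `1 / n`
(`n ≥ 2`) and of the positions of the loops.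

(1) The correlations are positive and `0 ≤ V_ρ(x, x + a) ≤ C (1 + |a|)`. If `ρ` and `ρ'` have the same
central character (irreducible representations of `SU(N)`: the same `N`-ality) then
`V_ρ' ≤ V_ρ + C (1 + V_ρ)^(1/D) log (2 + V_ρ)` and
`|V_ρ'(x, x + a) - V_ρ(x, x + a)| ≤ C (1 + |a|)^(1/D) log (2 + |a|)`.

(2) If `ρ` is trivial on the centre then `V_ρ ≤ C`: there is no confinement of such charges, at any
coupling and any temperature.

(3) If `ρ` and `ρ'` have the same central character then they have the same string tension along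
every sequence of lattices, temperatures and distances `|a| → ∞`; in particular `ρ` is confined if
and only if `ρ'` is.
-/

open MeasureTheory Matrix Filter Topology

namespace Pool.Agent.Q286.Cand.PolyakovLoopNality

open Pool.Agent.Q286.NL Pool.Agent.Q286.PL

/-- **Polyakov loops in Wilson's lattice gauge theory: the static potential depends, up to a
sublinear error, only on the central character, at every coupling and every temperature.** -/
theorem result (N D : ℕ) (hD : 2 ≤ D) (G : Subgroup (UU N)) (hG : IsClosed (G : Set (UU N)))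
    (hc : ConnectedSpace G) [MeasurableSpace G] [BorelSpace G] (μ : Measure G)
    [IsProbabilityMeasure μ] [μ.IsHaarMeasure] (κ β : ℝ) (hβ : 0 < β) :
    -- (1) comparison of the potentials of two representations with the same central character
    (∀ (d d' : ℕ) (ρ : Rep G d) (ρ' : Rep G d'), 0 < d → 0 < d' → SameCentre ρ ρ' →
      ∃ C : ℝ, ∀ (l n : ℕ) [NeZero l] [NeZero n], 2 ≤ n →
        ∀ (x : Fin D → ZMod l) (a : Fin D → ℤ),
        0 < corr μ n κ β ρ x (fun i => x i + a i) ∧
        0 ≤ pot μ n κ β ρ x (fun i => x i + a i) ∧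
        pot μ n κ β ρ x (fun i => x i + a i) ≤ C * (1 + ∑ i, |(a i : ℝ)|) ∧
        pot μ n κ β ρ' x (fun i => x i + a i) ≤ pot μ n κ β ρ x (fun i => x i + a i) +
          C * ((1 + pot μ n κ β ρ x (fun i => x i + a i)) ^ (1 / (D : ℝ)) *
            Real.log (2 + pot μ n κ β ρ x (fun i => x i + a i))) ∧
        |pot μ n κ β ρ' x (fun i => x i + a i) - pot μ n κ β ρ x (fun i => x i + a i)| ≤
          C * ((1 + ∑ i, |(a i : ℝ)|) ^ (1 / (D : ℝ)) * Real.log (2 + ∑ i, |(a i : ℝ)|))) ∧
    -- (2) screening of the charges which are trivial on the centre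
    (∀ (d : ℕ) (ρ : Rep G d), 0 < d → (∀ z ∈ Subgroup.center G, ρ.mat z = 1) →
      ∃ C : ℝ, ∀ (l n : ℕ) [NeZero l] [NeZero n], 2 ≤ n → ∀ x y : Fin D → ZMod l,
        pot μ n κ β ρ x y ≤ C) ∧
    -- (3) same central character: same string tension
    (∀ (d d' : ℕ) (ρ : Rep G d) (ρ' : Rep G d'), 0 < d → 0 < d' → SameCentre ρ ρ' →
      ∀ (l n : ℕ → ℕ) [∀ j, NeZero (l j)] [∀ j, NeZero (n j)], (∀ j, 2 ≤ n j) →
      ∀ (x : (j : ℕ) → Fin D → ZMod (l j)) (a : ℕ → Fin D → ℤ),
        Tendsto (fun j => ∑ i, |(a j i : ℝ)|) atTop atTop → ∀ s : ℝ,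
        (Tendsto (fun j => pot μ (n j) κ β ρ (x j) (fun i => x j i + a j i) /
            ∑ i, |(a j i : ℝ)|) atTop (𝓝 s) ↔
          Tendsto (fun j => pot μ (n j) κ β ρ' (x j) (fun i => x j i + a j i) /
            ∑ i, |(a j i : ℝ)|) atTop (𝓝 s))) :=
  a_final N D hD G hG hc μ κ β hβ

end Pool.Agent.Q286.Cand.PolyakovLoopNality
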