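import Mathlib
import Pool.Agent.Q286.NL.All2

/-!
# Lattice Yang-Mills theory: the string tension depends only on the N-ality, at every coupling

Hamiltonian lattice Yang-Mills theory of Kogut and Susskind on the periodic lattice `(ℤ/l)^D`,
`D ≥ 2`, with gauge group an arbitrary connected closed subgroup `G` of `U(N)` (for instance
`SU(N)`), for EVERY coupling `g > 0` and every real magnetic coupling `b`:
`H = -(g^2/2) ∑ (Laplace operators of the links) + b ∑_p Re tr (1 - U_p)`.
The static potential `V_ρ(x, y)` of a unitary representation `ρ` of `G` is the lowest energy of the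
states with the static charge `ρ` at `x` and its dual at `y` (Gauss's law) minus the ground state
energy of the theory without charges.

The definitions are in `Pool.Agent.Q286.NL.Def`: `LieBasis` (orthonormal basis of the Lie algebra),
`Rep`, `SameCentre` (same central character: for irreducible representations of `SU(N)` this is the same
`N`-ality), `dl` (derivatives), `kin`, `magnetic`, `gauge`, `energy`, `IsState` (Gauss's law),
`chargedEnergy`, `vacEnergy`, `potential`.

Let `θ = (D + 1) / (2 D) < 1`. All constants below are independent of the size `l` of the lattice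
and of the positions of the charges.

(1) If the central character of `ρ'` is the `k`-th power of the central character of `ρ`, `k` any
integer, then `V_ρ' ≤ k^2 V_ρ + C (1 + V_ρ)^θ`, and `0 ≤ V_ρ(x, x + a) ≤ C |a|`. (For `U(1)` the factor
`k^2` is the one of Coulomb's law.)

(2) If `ρ` is trivial on the centre then `V_ρ ≤ C`: the charge is screened.

(3) If `ρ` and `ρ'` have the same central character then
`|V_ρ'(x, x + a) - V_ρ(x, x + a)| ≤ C (1 + |a|)^θ`, and they have the same string tension:
`V_ρ / |a|` tends to `s` along a sequence of lattices and of distances `|a| → ∞` if and only if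
`V_ρ' / |a|` does.
-/

open MeasureTheory Matrix Filter Topology
open scoped ContDiff Matrix.Norms.Frobenius

namespace Pool.Agent.Q286.Cand.StringTensionNality

open Pool.Agent.Q286.NL

/-- The central character of `ρ'` is the `k`-th power of the central character of `ρ`. -/
def PowerCentre {N d d' : ℕ} {G : Subgroup (UU N)} (k : ℤ) (ρ : Rep G d) (ρ' : Rep G d') : Prop :=
  ∀ z ∈ Subgroup.center G, ∃ ζ : ℂ, ρ.mat z = ζ • (1 : Mt d) ∧ ρ'.mat z = ζ ^ k • (1 : Mt d')

/-- **The string tension of Hamiltonian lattice Yang-Mills theory depends only on the central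
character of the representation, at every coupling.** -/
theorem result (N n D : ℕ) (hD : 2 ≤ D) (G : Subgroup (UU N)) (hG : IsClosed (G : Set (UU N)))
    (hc : ConnectedSpace G) (B : LieBasis G n) [MeasurableSpace G] [BorelSpace G] (μ : Measure G)
    [IsProbabilityMeasure μ] [μ.IsHaarMeasure] (g b : ℝ) (hg : 0 < g) :
    -- (1) comparison of the potentials of powers of a central character
    (∀ (d d' : ℕ) (ρ : Rep G d) (ρ' : Rep G d') (k : ℤ), 0 < d → 0 < d' → PowerCentre k ρ ρ' →
      ∃ C : ℝ, ∀ (l : ℕ) [NeZero l] (x : Fin D → ZMod l) (a : Fin D → ℤ),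
        0 ≤ potential B μ g b ρ x (fun i => x i + a i) ∧
        potential B μ g b ρ x (fun i => x i + a i) ≤ C * ∑ i, |(a i : ℝ)| ∧
        potential B μ g b ρ' x (fun i => x i + a i) ≤
          k ^ 2 * potential B μ g b ρ x (fun i => x i + a i) +
          C * (1 + potential B μ g b ρ x (fun i => x i + a i)) ^ (((D : ℝ) + 1) / (2 * D))) ∧
    -- (2) screening of the charges which are trivial on the centre
    (∀ (d : ℕ) (ρ : Rep G d), 0 < d → (∀ z ∈ Subgroup.center G, ρ.mat z = 1) →
      ∃ C : ℝ, ∀ (l : ℕ) [NeZero l] (x y : Fin D → ZMod l), potential B μ g b ρ x y ≤ C) ∧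
    -- (3) same central character: same potential up to a sublinear error, same string tension
    (∀ (d d' : ℕ) (ρ : Rep G d) (ρ' : Rep G d'), 0 < d → 0 < d' → SameCentre ρ ρ' →
      (∃ C : ℝ, ∀ (l : ℕ) [NeZero l] (x : Fin D → ZMod l) (a : Fin D → ℤ),
        |potential B μ g b ρ' x (fun i => x i + a i) -
            potential B μ g b ρ x (fun i => x i + a i)| ≤
          C * (1 + ∑ i, |(a i : ℝ)|) ^ (((D : ℝ) + 1) / (2 * D))) ∧
      ∀ (l : ℕ → ℕ) [∀ j, NeZero (l j)] (x : (j : ℕ) → Fin D → ZMod (l j)) (a : ℕ → Fin D → ℤ),
        Tendsto (fun j => ∑ i, |(a j i : ℝ)|) atTop atTop → ∀ s : ℝ,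
        (Tendsto (fun j => potential B μ g b ρ (x j) (fun i => x j i + a j i) /
            ∑ i, |(a j i : ℝ)|) atTop (𝓝 s) ↔
          Tendsto (fun j => potential B μ g b ρ' (x j) (fun i => x j i + a j i) /
            ∑ i, |(a j i : ℝ)|) atTop (𝓝 s))) :=
  a_final2 N n D hD G hG hc B μ g b hg

end Pool.Agent.Q286.Cand.StringTensionNality
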